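import Mathlib

/-!
# The group `ℤ ≀ ℤ` as a matrix group, congruence subgroups, diameters of quotients
-/

set_option autoImplicit false

namespace Pool.Agent.Q101.Box

open LaurentPolynomial

/-- The ring `A = ℤ[X, X⁻¹]`. -/
abbrev A : Type := LaurentPolynomial ℤ

/-- The group `G = ℤ ≀ ℤ = A ⋊ ℤ`: pairs `(n, P)` standing for the matrices
`[[X ^ n, P], [0, 1]]`. -/
@[ext] structure ZwrZ where
  /-- the exponent of the upper left entry -/
  n : ℤ
  /-- the upper right entry -/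
  P : A

namespace ZwrZ

noncomputable instance : Mul ZwrZ := ⟨fun g h => ⟨g.n + h.n, g.P + T g.n * h.P⟩⟩
noncomputable instance : One ZwrZ := ⟨⟨0, 0⟩⟩
noncomputable instance : Inv ZwrZ := ⟨fun g => ⟨-g.n, -(T (-g.n) * g.P)⟩⟩

theorem mul_def (g h : ZwrZ) : g * h = ⟨g.n + h.n, g.P + T g.n * h.P⟩ := rfl
theorem one_def : (1 : ZwrZ) = ⟨0, 0⟩ := rfl
theorem inv_def (g : ZwrZ) : g⁻¹ = ⟨-g.n, -(T (-g.n) * g.P)⟩ := rfl
theorem mul_n (g h : ZwrZ) : (g * h).n = g.n + h.n := rfl
theorem mul_P (g h : ZwrZ) : (g * h).P = g.P + T g.n * h.P := rfl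
theorem one_n : (1 : ZwrZ).n = 0 := rfl
theorem one_P : (1 : ZwrZ).P = 0 := rfl
theorem inv_n (g : ZwrZ) : (g⁻¹).n = -g.n := rfl
theorem inv_P (g : ZwrZ) : (g⁻¹).P = -(T (-g.n) * g.P) := rfl

noncomputable instance : Group ZwrZ where
  mul_assoc a b c := by
    ext1
    · rw [mul_n, mul_n, mul_n, mul_n, add_assoc]
    · rw [mul_P, mul_P, mul_P, mul_P, mul_n, T_add]; ring
  one_mul a := by
    ext1
    · rw [mul_n, one_n, zero_add]
    · rw [mul_P, one_P, one_n, T_zero, one_mul, zero_add]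
  mul_one a := by
    ext1
    · rw [mul_n, one_n, add_zero]
    · rw [mul_P, one_P, mul_zero, add_zero]
  inv_mul_cancel a := by
    ext1
    · rw [mul_n, inv_n, one_n, neg_add_cancel]
    · rw [mul_P, inv_P, inv_n, one_P, neg_add_cancel]

end ZwrZ

open ZwrZ

/-- The matrix `[[X ^ n, P], [0, 1]]`. -/
noncomputable def mat (g : ZwrZ) : Matrix (Fin 2) (Fin 2) A := !![T g.n, g.P; 0, 1]

theorem mat_mul (g h : ZwrZ) : mat (g * h) = mat g * mat h := by
  unfold mat
  rw [Matrix.mul_fin_two]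
  rw [mul_n, mul_P, T_add]
  simp only [mul_zero, add_zero, mul_one, zero_mul, zero_add]
  rw [add_comm g.P]

theorem mat_one : mat 1 = 1 := by
  unfold mat
  rw [one_n, one_P, T_zero, Matrix.one_fin_two]

/-- The identification of `G` with a group of matrices over `A`. -/
noncomputable def rho : ZwrZ →* Matrix.GeneralLinearGroup (Fin 2) A where
  toFun g := ⟨mat g, mat g⁻¹, by rw [← mat_mul, mul_inv_cancel, mat_one],
    by rw [← mat_mul, inv_mul_cancel, mat_one]⟩
  map_one' := Units.ext mat_one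
  map_mul' g h := Units.ext (mat_mul g h)

theorem rho_val (g : ZwrZ) : (rho g).val = !![T g.n, g.P; 0, 1] := rfl

/-- The congruence subgroup `G(I)`: the kernel of `G → GL₂(A) → GL₂(A/I)`. -/
noncomputable def congr (I : Ideal A) : Subgroup ZwrZ :=
  ((Matrix.GeneralLinearGroup.map (n := Fin 2) (Ideal.Quotient.mk I)).comp rho).ker

noncomputable instance (I : Ideal A) : (congr I).Normal := by
  unfold congr
  infer_instance

theorem mem_congr {I : Ideal A} {g : ZwrZ} : g ∈ congr I ↔ T g.n - 1 ∈ I ∧ g.P ∈ I := by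
  unfold congr
  rw [MonoidHom.mem_ker]
  have h1 : ((Matrix.GeneralLinearGroup.map (n := Fin 2) (Ideal.Quotient.mk I)).comp rho) g = 1 ↔
      (Ideal.Quotient.mk I).mapMatrix !![T g.n, g.P; 0, 1] = 1 := by
    rw [Units.ext_iff]
    rfl
  rw [h1, ← Matrix.ext_iff]
  constructor
  · intro h
    have h00 := h 0 0
    have h01 := h 0 1
    simp at h00 h01
    refine ⟨?_, Ideal.Quotient.eq_zero_iff_mem.1 h01⟩
    rw [← Ideal.Quotient.eq_zero_iff_mem, map_sub, map_one, h00, sub_self]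
  · rintro ⟨h2, h3⟩ i j
    rw [← Ideal.Quotient.eq_zero_iff_mem, map_sub, map_one, sub_eq_zero] at h2
    rw [← Ideal.Quotient.eq_zero_iff_mem] at h3
    fin_cases i <;> fin_cases j <;> simp [h2, h3]

/-- The Cayley graph of `Q` with respect to the set `E`: distinct elements are adjacent when they
differ by right multiplication by an element of `E` or the inverse of such an element. -/
def cayleyGraph {Q : Type*} [Group Q] (E : Set Q) : SimpleGraph Q :=
  SimpleGraph.fromRel (fun a b => a⁻¹ * b ∈ E)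

/-- The diameter of the Cayley graph of the quotient `G / G(I)` with respect to the image of the
subset `S` of `G`. -/
noncomputable def quotDiam (S : Finset ZwrZ) (I : Ideal A) : ℕ :=
  (cayleyGraph ((fun g : ZwrZ => (g : ZwrZ ⧸ congr I)) '' (S : Set ZwrZ))).diam

/-- The ideals `I₀ ⊇ I₁ ⊇ ...` have finite index in `A` and the congruence subgroups `G(Iₖ)` form
a filtration of `G` (so they define a congruence box space). -/
def CongruenceFiltration (I : ℕ → Ideal A) : Prop :=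
  Antitone I ∧ (∀ k, Finite (A ⧸ I k)) ∧ ⨅ k, congr (I k) = ⊥

/-- Property `D_α` of the congruence box space of `G` given by the ideals `I k`, with the
diameters measured with respect to the generating set `S`. -/
def PropertyD (S : Finset ZwrZ) (I : ℕ → Ideal A) (α : ℝ) : Prop :=
  ∃ K : ℝ, 0 < K ∧ ∀ k, K * (Nat.card (ZwrZ ⧸ congr (I k)) : ℝ) ^ α ≤ (quotDiam S (I k) : ℝ)

theorem filtration_of_iInf {I : ℕ → Ideal A} (h1 : Antitone I) (h2 : ∀ k, Finite (A ⧸ I k))
    (h3 : ∀ P : A, (∀ k, P ∈ I k) → P = 0) : CongruenceFiltration I := by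
  refine ⟨h1, h2, ?_⟩
  rw [eq_bot_iff]
  intro g hg
  rw [Subgroup.mem_iInf] at hg
  have h4 := h3 _ (fun k => (mem_congr.1 (hg k)).1)
  have h5 := h3 _ (fun k => (mem_congr.1 (hg k)).2)
  rw [Subgroup.mem_bot]
  ext1
  · rw [one_n]
    have h6 : (T g.n : A) = 1 := sub_eq_zero.1 h4
    have h7 := congrArg (eval₂ (Int.castRingHom ℚ) (Units.mk0 (2 : ℚ) two_ne_zero)) h6
    rw [eval₂_T, map_one, Units.val_zpow_eq_zpow_val, Units.val_mk0] at h7
    exact (zpow_eq_one_iff_right₀ (by norm_num) (by norm_num)).1 h7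
  · exact h5

section words

variable {Q : Type*} [Group Q]

/-- Letters. -/
def Lt (E : Set Q) (a : Q) : Prop := a ∈ E ∨ a⁻¹ ∈ E

theorem walk_list (E : Set Q) {v w : Q} (p : (cayleyGraph E).Walk v w) :
    ∃ l : List Q, l.length = p.length ∧ (∀ a ∈ l, Lt E a) ∧ w = v * l.prod := by
  induction p with
  | nil => exact ⟨[], rfl, by simp, by simp⟩
  | @cons u v w h p ih =>
    obtain ⟨l, hl, hlt, rfl⟩ := ih
    have h' : u ≠ v ∧ (u⁻¹ * v ∈ E ∨ v⁻¹ * u ∈ E) := h
    refine ⟨(u⁻¹ * v) :: l, by simp [hl], ?_, ?_⟩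
    · intro a ha
      rcases List.mem_cons.1 ha with rfl | ha
      · rcases h'.2 with h1 | h1
        · exact Or.inl h1
        · exact Or.inr (by rwa [mul_inv_rev, inv_inv])
      · exact hlt a ha
    · rw [List.prod_cons, ← mul_assoc, mul_inv_cancel_left]

theorem list_walk (E : Set Q) (l : List Q) (hl : ∀ a ∈ l, Lt E a) (v : Q) :
    ∃ p : (cayleyGraph E).Walk v (v * l.prod), p.length ≤ l.length := by
  induction l generalizing v with
  | nil => exact ⟨(SimpleGraph.Walk.nil' v).copy rfl (by simp), by simp⟩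
  | cons a l ih =>
    obtain ⟨p, hp⟩ := ih (fun b hb => hl b (List.mem_cons_of_mem _ hb)) (v * a)
    have e : v * a * l.prod = v * (a :: l).prod := by rw [List.prod_cons, mul_assoc]
    by_cases hav : v = v * a
    · refine ⟨p.copy hav.symm e, ?_⟩
      rw [SimpleGraph.Walk.length_copy, List.length_cons]
      omega
    · have hadj : (cayleyGraph E).Adj v (v * a) := by
        refine ⟨hav, ?_⟩
        rcases hl a List.mem_cons_self with h | h
        · exact Or.inl (show v⁻¹ * (v * a) ∈ E by rwa [inv_mul_cancel_left])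
        · refine Or.inr (show (v * a)⁻¹ * v ∈ E from ?_)
          rwa [mul_inv_rev, mul_assoc, inv_mul_cancel, mul_one]
      refine ⟨(p.cons hadj).copy rfl e, ?_⟩
      rw [SimpleGraph.Walk.length_copy, SimpleGraph.Walk.length_cons, List.length_cons]
      omega

theorem exists_word {E : Set Q} (hE : Subgroup.closure E = ⊤) (g : Q) :
    ∃ l : List Q, (∀ a ∈ l, Lt E a) ∧ l.prod = g := by
  have hg : g ∈ Subgroup.closure E := by rw [hE]; trivial
  rw [← Subgroup.mem_toSubmonoid, Subgroup.closure_toSubmonoid] at hg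
  obtain ⟨l, hl, hp⟩ := Submonoid.exists_list_of_mem_closure hg
  exact ⟨l, fun a ha => (hl a ha).imp id id, hp⟩

theorem cayley_connected {E : Set Q} (hE : Subgroup.closure E = ⊤) :
    (cayleyGraph E).Connected := by
  have : Nonempty Q := ⟨1⟩
  refine ⟨fun u v => ?_⟩
  obtain ⟨l, hl, hlp⟩ := exists_word hE (u⁻¹ * v)
  obtain ⟨p, _⟩ := list_walk E l hl u
  rw [hlp, mul_inv_cancel_left] at p
  exact ⟨p⟩

end words

theorem image_closure {S : Finset ZwrZ} (hS : Subgroup.closure (S : Set ZwrZ) = ⊤) (I : Ideal A) :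
    Subgroup.closure ((fun g : ZwrZ => (g : ZwrZ ⧸ congr I)) '' (S : Set ZwrZ)) = ⊤ := by
  have h1 : ((fun g : ZwrZ => (g : ZwrZ ⧸ congr I)) '' (S : Set ZwrZ)) =
      (QuotientGroup.mk' (congr I)) '' (S : Set ZwrZ) := rfl
  rw [h1, ← MonoidHom.map_closure, hS, ← MonoidHom.range_eq_map, MonoidHom.range_eq_top]
  exact QuotientGroup.mk'_surjective _

/-- Lower bounds for the diameter. -/
theorem le_quotDiam {S : Finset ZwrZ} (hS : Subgroup.closure (S : Set ZwrZ) = ⊤) {I : Ideal A}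
    [Finite (ZwrZ ⧸ congr I)] (g : ZwrZ) {L : ℕ}
    (h : ∀ l : List ZwrZ, (∀ a ∈ l, a ∈ S ∨ a⁻¹ ∈ S) → g⁻¹ * l.prod ∈ congr I → L ≤ l.length) :
    L ≤ quotDiam S I := by
  have hconn := cayley_connected (image_closure hS I)
  have hne := SimpleGraph.connected_iff_ediam_ne_top.1 hconn
  refine le_trans ?_ (SimpleGraph.dist_le_diam hne (u := (1 : ZwrZ ⧸ congr I)) (v := (g : ZwrZ ⧸ congr I)))
  obtain ⟨p, hp⟩ := hconn.exists_walk_length_eq_dist (1 : ZwrZ ⧸ congr I) (g : ZwrZ ⧸ congr I)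
  rw [← hp]
  obtain ⟨l, hl1, hl2, hl3⟩ := walk_list _ p
  rw [← hl1]
  -- lift the letters
  have lift : ∀ l : List (ZwrZ ⧸ congr I),
      (∀ a ∈ l, Lt ((fun g : ZwrZ => (g : ZwrZ ⧸ congr I)) '' (S : Set ZwrZ)) a) →
      ∃ l' : List ZwrZ, l'.length = l.length ∧ (∀ a ∈ l', a ∈ S ∨ a⁻¹ ∈ S) ∧
        ((l'.prod : ZwrZ) : ZwrZ ⧸ congr I) = l.prod := by
    intro l
    induction l with
    | nil => exact fun _ => ⟨[], rfl, by simp, rfl⟩
    | cons a l ih =>
      intro hl
      obtain ⟨l', h1, h2, h3⟩ := ih (fun b hb => hl b (List.mem_cons_of_mem _ hb))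
      obtain ⟨b, hb, hba⟩ : ∃ b : ZwrZ, (b ∈ S ∨ b⁻¹ ∈ S) ∧ (b : ZwrZ ⧸ congr I) = a := by
        rcases hl a List.mem_cons_self with ⟨s, hs, hsa⟩ | ⟨s, hs, hsa⟩
        · exact ⟨s, Or.inl hs, hsa⟩
        · refine ⟨s⁻¹, Or.inr (by rwa [inv_inv]), ?_⟩
          rw [QuotientGroup.mk_inv]
          have h5 : (s : ZwrZ ⧸ congr I) = a⁻¹ := hsa
          rw [h5, inv_inv]
      refine ⟨b :: l', by simp [h1], ?_, ?_⟩
      · intro c hc
        rcases List.mem_cons.1 hc with rfl | hc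
        · exact hb
        · exact h2 c hc
      · rw [List.prod_cons, List.prod_cons, QuotientGroup.mk_mul, h3, hba]
  obtain ⟨l', h1, h2, h3⟩ := lift l hl2
  rw [← h1]
  apply h l' h2
  rw [← QuotientGroup.eq, h3, hl3, one_mul]

/-- Upper bounds for the diameter. -/
theorem quotDiam_le {S : Finset ZwrZ} {I : Ideal A} {L : ℕ}
    (h : ∀ g : ZwrZ, ∃ l : List ZwrZ, (∀ a ∈ l, a ∈ S ∨ a⁻¹ ∈ S) ∧ g⁻¹ * l.prod ∈ congr I ∧
      l.length ≤ L) :
    quotDiam S I ≤ L := by
  have h1 : (cayleyGraph ((fun g : ZwrZ => (g : ZwrZ ⧸ congr I)) '' (S : Set ZwrZ))).ediam ≤ L := by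
    apply SimpleGraph.ediam_le_of_edist_le
    intro u v
    obtain ⟨g, hg⟩ := QuotientGroup.mk_surjective (u⁻¹ * v)
    obtain ⟨l, hl1, hl2, hl3⟩ := h g
    have hprod : (l.map (fun g : ZwrZ => (g : ZwrZ ⧸ congr I))).prod = u⁻¹ * v := by
      rw [← hg]
      have e : (l.map (fun g : ZwrZ => (g : ZwrZ ⧸ congr I))).prod = ((l.prod : ZwrZ) : ZwrZ ⧸ congr I) :=
        (map_list_prod (QuotientGroup.mk' (congr I)) l).symm
      rw [e, eq_comm, QuotientGroup.eq]
      exact hl2
    obtain ⟨p, hp⟩ := list_walk ((fun g : ZwrZ => (g : ZwrZ ⧸ congr I)) '' (S : Set ZwrZ))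
      (l.map (fun g : ZwrZ => (g : ZwrZ ⧸ congr I))) (by
        intro a ha
        obtain ⟨b, hb, rfl⟩ := List.mem_map.1 ha
        rcases hl1 b hb with h2 | h2
        · exact Or.inl ⟨b, h2, rfl⟩
        · exact Or.inr ⟨b⁻¹, h2, QuotientGroup.mk_inv _ _⟩) u
    rw [List.length_map] at hp
    obtain rfl : u * (l.map (fun g : ZwrZ => (g : ZwrZ ⧸ congr I))).prod = v := by
      rw [hprod, mul_inv_cancel_left]
    exact (SimpleGraph.edist_le p).trans (by exact_mod_cast hp.trans hl3)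
  unfold quotDiam SimpleGraph.diam
  exact ENat.toNat_le_of_le_coe h1

/-- The quotient by a congruence subgroup is finite, of order at most `|A/I|²`. -/
theorem card_quot_le (I : Ideal A) [Finite (A ⧸ I)] :
    Finite (ZwrZ ⧸ congr I) ∧ Nat.card (ZwrZ ⧸ congr I) ≤ Nat.card (A ⧸ I) ^ 2 := by
  let f : ZwrZ ⧸ congr I → (A ⧸ I) × (A ⧸ I) := fun q =>
    (Ideal.Quotient.mk I (T q.out.n), Ideal.Quotient.mk I q.out.P)
  have hf : Function.Injective f := by
    intro q r hqr
    have h1 : Ideal.Quotient.mk I (T q.out.n) = Ideal.Quotient.mk I (T r.out.n) :=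
      congrArg Prod.fst hqr
    have h2 : Ideal.Quotient.mk I q.out.P = Ideal.Quotient.mk I r.out.P := congrArg Prod.snd hqr
    have e1 : ((q.out : ZwrZ) : ZwrZ ⧸ congr I) = q := Quotient.out_eq' q
    have e2 : ((r.out : ZwrZ) : ZwrZ ⧸ congr I) = r := Quotient.out_eq' r
    rw [← e1, ← e2, QuotientGroup.eq, mem_congr]
    rw [Ideal.Quotient.eq] at h1 h2
    constructor
    · rw [mul_n, inv_n]
      have : (T (-q.out.n + r.out.n) - 1 : A) = -(T (-q.out.n) * (T q.out.n - T r.out.n)) := by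
        rw [mul_sub, ← T_add, ← T_add, neg_add_cancel, T_zero]; ring
      rw [this]
      exact I.neg_mem (I.mul_mem_left _ h1)
    · rw [mul_P, inv_P, inv_n]
      have : (-(T (-q.out.n) * q.out.P) + T (-q.out.n) * r.out.P : A) =
          -(T (-q.out.n) * (q.out.P - r.out.P)) := by ring
      rw [this]
      exact I.neg_mem (I.mul_mem_left _ h2)
  refine ⟨Finite.of_injective f hf, ?_⟩
  have := Nat.card_le_card_of_injective f hf
  rw [Nat.card_prod] at this
  rw [pow_two]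
  exact this

end Pool.Agent.Q101.Box
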