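import Mathlib

/-!
# The McLain group over the field with two elements, indexed by the rationals
-/

set_option autoImplicit false

namespace Pool.Agent.Q101.McLain

/-- The vector space with basis `ℚ` over the field with two elements. -/
abbrev V : Type := ℚ →₀ ZMod 2

/-- The basis vectors. -/
noncomputable def e (k : ℚ) : V := Finsupp.single k 1

theorem e_self (k : ℚ) : e k k = 1 := Finsupp.single_eq_same
theorem e_ne {k l : ℚ} (h : k ≠ l) : e k l = 0 := Finsupp.single_eq_of_ne h.symm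

theorem e_ne_zero (k : ℚ) : e k ≠ 0 := by
  intro h
  have := e_self k
  rw [h] at this
  simp at this

theorem add_self (v : V) : v + v = 0 := by
  ext k
  exact CharTwo.add_self_eq_zero _

theorem zmod2 (a : ZMod 2) (h : a ≠ 0) : a = 1 := by
  revert a; decide

/-- The linear map `v ↦ v + v_j e_i`. -/
noncomputable def tl (i j : ℚ) : V →ₗ[ZMod 2] V :=
  LinearMap.id + (Finsupp.lapply j).smulRight (e i)

theorem tl_apply (i j : ℚ) (v : V) : tl i j v = v + v j • e i := rfl

theorem tl_inv {i j : ℚ} (h : i ≠ j) : Function.Involutive (tl i j) := by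
  intro v
  rw [tl_apply, tl_apply]
  have : (v + v j • e i) j = v j := by
    rw [Finsupp.add_apply, Finsupp.smul_apply, e_ne h, smul_zero, add_zero]
  rw [this, add_assoc, add_self, add_zero]

/-- The transvection. -/
noncomputable def tv (i j : ℚ) (h : i ≠ j) : V ≃ₗ[ZMod 2] V :=
  LinearEquiv.ofInvolutive (tl i j) (tl_inv h)

theorem tv_apply {i j : ℚ} (h : i ≠ j) (v : V) : tv i j h v = v + v j • e i := rfl

theorem tv_mul_self {i j : ℚ} (h : i ≠ j) : tv i j h * tv i j h = 1 :=
  LinearEquiv.ext fun v => tl_inv h v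

theorem tv_inv {i j : ℚ} (h : i ≠ j) : (tv i j h)⁻¹ = tv i j h :=
  inv_eq_of_mul_eq_one_left (tv_mul_self h)

/-- The McLain group as a group of linear automorphisms. -/
noncomputable def M : Subgroup (V ≃ₗ[ZMod 2] V) :=
  Subgroup.closure {g | ∃ (i j : ℚ) (h : i < j), g = tv i j h.ne}

/-- The McLain group. -/
abbrev McL : Type := M

/-- The transvections as elements of the McLain group. -/
noncomputable def t (i j : ℚ) (h : i < j) : McL := ⟨tv i j h.ne, Subgroup.subset_closure ⟨i, j, h, rfl⟩⟩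

theorem t_val {i j : ℚ} (h : i < j) (v : V) : (t i j h).1 v = v + v j • e i := rfl

theorem t_inv {i j : ℚ} (h : i < j) : (t i j h)⁻¹ = t i j h := Subtype.ext (tv_inv h.ne)

theorem t_ne_one {i j : ℚ} (h : i < j) : t i j h ≠ 1 := by
  intro h1
  have h2 : (t i j h).1 (e j) = e j := by rw [h1]; rfl
  rw [t_val, e_self, one_smul] at h2
  exact e_ne_zero i (by simpa using h2)

theorem mul_val (x y : McL) (v : V) : (x * y).1 v = x.1 (y.1 v) := rfl

theorem inv_fix {x : McL} {v : V} (h : x.1 v = v) : (x⁻¹).1 v = v := by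
  have h1 : (x⁻¹ * x).1 v = v := by rw [inv_mul_cancel]; rfl
  rw [mul_val, h] at h1
  exact h1

theorem ext_e {x y : McL} (h : ∀ k, x.1 (e k) = y.1 (e k)) : x = y := by
  apply Subtype.ext
  apply LinearEquiv.toLinearMap_injective
  apply Finsupp.lhom_ext'
  intro k
  apply LinearMap.ext_ring
  exact h k

theorem ext_v {x y : McL} (h : ∀ v, x.1 v = y.1 v) : x = y :=
  Subtype.ext (LinearEquiv.ext h)

theorem fix_low (x : McL) : ∃ m : ℚ, ∀ k < m, x.1 (e k) = e k := by
  obtain ⟨x, hx⟩ := x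
  have : ∃ m : ℚ, ∀ k < m, x (e k) = e k := by
    unfold M at hx
    induction hx using Subgroup.closure_induction with
    | mem x hx =>
      obtain ⟨i, j, h, rfl⟩ := hx
      refine ⟨j, fun k hk => ?_⟩
      rw [tv_apply, e_ne hk.ne, zero_smul, add_zero]
    | one => exact ⟨0, fun k _ => rfl⟩
    | mul x y _ _ hx hy =>
      obtain ⟨m, hm⟩ := hx
      obtain ⟨m', hm'⟩ := hy
      refine ⟨min m m', fun k hk => ?_⟩
      show x (y (e k)) = e k
      rw [hm' k (lt_of_lt_of_le hk (min_le_right _ _)), hm k (lt_of_lt_of_le hk (min_le_left _ _))]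
    | inv x _ hx =>
      obtain ⟨m, hm⟩ := hx
      refine ⟨m, fun k hk => ?_⟩
      show x.symm (e k) = e k
      rw [LinearEquiv.symm_apply_eq]
      exact (hm k hk).symm
  exact this

/-- Every nontrivial normal subgroup contains a transvection. -/
theorem exists_t_mem {N : Subgroup McL} (hN : N.Normal) (hne : N ≠ ⊥) :
    ∃ (i j : ℚ) (h : i < j), t i j h ∈ N := by
  obtain ⟨x, hx, hx1⟩ := (Subgroup.ne_bot_iff_exists_ne_one.1 hne) |>.elim
    (fun a ha => (⟨a.1, a.2, fun h => ha (Subtype.ext h)⟩ : ∃ x : McL, x ∈ N ∧ x ≠ 1))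
  obtain ⟨j, hj⟩ : ∃ j, (x⁻¹).1 (e j) ≠ e j := by
    by_contra hcon
    push Not at hcon
    have h1 : x⁻¹ = 1 := ext_e hcon
    exact hx1 (inv_eq_one.1 h1)
  obtain ⟨i, hi⟩ : ∃ i, (e j + (x⁻¹).1 (e j)) i ≠ 0 := by
    by_contra hcon
    push Not at hcon
    have h1 : e j + (x⁻¹).1 (e j) = 0 := Finsupp.ext hcon
    apply hj
    have h2 : e j + (e j + (x⁻¹).1 (e j)) = e j + 0 := by rw [h1]
    rw [← add_assoc, add_self, zero_add, add_zero] at h2
    exact h2
  have hi1 := zmod2 _ hi
  obtain ⟨m, hm⟩ := fix_low x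
  obtain ⟨k, hk⟩ : ∃ k : ℚ, k < min m (min i j) := exists_lt _
  have hkm : k < m := lt_of_lt_of_le hk (min_le_left _ _)
  have hki : k < i := lt_of_lt_of_le hk ((min_le_right _ _).trans (min_le_left _ _))
  have hkj : k < j := lt_of_lt_of_le hk ((min_le_right _ _).trans (min_le_right _ _))
  have hxk := hm k hkm
  have hxk' := inv_fix hxk
  -- the element `y`
  let φ : V → ZMod 2 := fun v => (v + (x⁻¹).1 v) i
  have hφadd : ∀ v w, φ (v + w) = φ v + φ w := by
    intro v w
    show (v + w + (x⁻¹).1 (v + w)) i = (v + (x⁻¹).1 v) i + (w + (x⁻¹).1 w) i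
    rw [map_add, Finsupp.add_apply, Finsupp.add_apply, Finsupp.add_apply, Finsupp.add_apply,
      Finsupp.add_apply]
    ring
  have hφsmul : ∀ (a : ZMod 2) v, φ (a • v) = a * φ v := by
    intro a v
    show (a • v + (x⁻¹).1 (a • v)) i = a * (v + (x⁻¹).1 v) i
    rw [map_smul, ← smul_add, Finsupp.smul_apply, smul_eq_mul]
  have hφk : φ (e k) = 0 := by
    show (e k + (x⁻¹).1 (e k)) i = 0
    rw [hxk', add_self]; rfl
  have hφj : φ (e j) = 1 := hi1
  obtain ⟨y, hy⟩ : ∃ y, y = t k i hki * x * (t k i hki)⁻¹ * x⁻¹ := ⟨_, rfl⟩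
  have hyN : y ∈ N := by
    rw [hy]
    exact N.mul_mem (hN.conj_mem x hx _) (N.inv_mem hx)
  have hyv : ∀ v, y.1 v = v + φ v • e k := by
    intro v
    rw [hy, t_inv, mul_val, mul_val, mul_val, t_val hki ((x⁻¹).1 v), map_add, map_smul, hxk]
    have h1 : x.1 ((x⁻¹).1 v) = v := by
      rw [← mul_val, mul_inv_cancel]; rfl
    rw [h1, t_val]
    have h2 : (v + ((x⁻¹).1 v) i • e k) i = v i := by
      rw [Finsupp.add_apply, Finsupp.smul_apply, e_ne hki.ne, smul_zero, add_zero]
    rw [h2]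
    show v + ((x⁻¹).1 v) i • e k + v i • e k = v + (v i + ((x⁻¹).1 v) i) • e k
    rw [add_smul, add_assoc, add_comm (((x⁻¹).1 v) i • e k)]
  have hyy : ∀ v, y.1 (y.1 v) = v := by
    intro v
    rw [hyv (y.1 v), hyv v, hφadd, hφsmul, hφk, mul_zero, add_zero, add_assoc, add_self, add_zero]
  have hyinv : y⁻¹ = y := inv_eq_of_mul_eq_one_left (ext_v hyy)
  obtain ⟨l, hl⟩ : ∃ l, l = j + 1 := ⟨_, rfl⟩
  have hjl : j < l := by rw [hl]; linarith
  have hkl : k < l := hkj.trans hjl
  refine ⟨k, l, hkl, ?_⟩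
  have hz : y * (t j l hjl * y⁻¹ * (t j l hjl)⁻¹) = t k l hkl := by
    apply ext_v
    intro v
    rw [t_inv, hyinv, mul_val, mul_val, mul_val, t_val, t_val, t_val]
    rw [hyv (v + v l • e j), hφadd, hφsmul, hφj, mul_one]
    have h1 : (v + v l • e j + (φ v + v l) • e k) l = v l := by
      rw [Finsupp.add_apply, Finsupp.add_apply, Finsupp.smul_apply, Finsupp.smul_apply,
        e_ne hjl.ne, e_ne hkl.ne, smul_zero, smul_zero, add_zero, add_zero]
    rw [h1]
    have h2 : v + v l • e j + (φ v + v l) • e k + v l • e j = v + (φ v + v l) • e k := by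
      have := add_self (v l • e j)
      calc v + v l • e j + (φ v + v l) • e k + v l • e j
          = v + (φ v + v l) • e k + (v l • e j + v l • e j) := by abel
        _ = _ := by rw [this, add_zero]
    rw [h2, hyv, hφadd, hφsmul, hφk, mul_zero, add_zero, add_smul]
    have := add_self (φ v • e k)
    calc v + (φ v • e k + v l • e k) + φ v • e k
        = v + v l • e k + (φ v • e k + φ v • e k) := by abel
      _ = _ := by rw [this, add_zero]
  rw [← hz]
  exact N.mul_mem hyN (hN.conj_mem _ (N.inv_mem hyN) _)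

/-- The commutator formula. -/
theorem t_comm {i j l : ℚ} (h1 : i < j) (h2 : j < l) :
    t i j h1 * t j l h2 * (t i j h1)⁻¹ * (t j l h2)⁻¹ = t i l (h1.trans h2) := by
  apply ext_v
  intro v
  rw [t_inv, t_inv, mul_val, mul_val, mul_val, t_val, t_val, t_val, t_val, t_val]
  have e1 : (v + v l • e j) j = v j + v l := by
    rw [Finsupp.add_apply, Finsupp.smul_apply, e_self, smul_eq_mul, mul_one]
  rw [e1]
  have e2 : (v + v l • e j + (v j + v l) • e i) l = v l := by
    rw [Finsupp.add_apply, Finsupp.add_apply, Finsupp.smul_apply, Finsupp.smul_apply,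
      e_ne h2.ne, e_ne (h1.trans h2).ne, smul_zero, smul_zero, add_zero, add_zero]
  rw [e2]
  have e3 : v + v l • e j + (v j + v l) • e i + v l • e j = v + (v j + v l) • e i := by
    have := add_self (v l • e j)
    calc v + v l • e j + (v j + v l) • e i + v l • e j
        = v + (v j + v l) • e i + (v l • e j + v l • e j) := by abel
      _ = _ := by rw [this, add_zero]
  rw [e3]
  have e4 : (v + (v j + v l) • e i) j = v j := by
    rw [Finsupp.add_apply, Finsupp.smul_apply, e_ne h1.ne, smul_zero, add_zero]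
  rw [e4, add_smul]
  have := add_self (v j • e i)
  calc v + (v j • e i + v l • e i) + v j • e i
      = v + v l • e i + (v j • e i + v j • e i) := by abel
    _ = _ := by rw [this, add_zero]

theorem t_mem_left {N : Subgroup McL} (hN : N.Normal) {i j k : ℚ} (h : i < j) (hk : k < i)
    (hm : t i j h ∈ N) : t k j (hk.trans h) ∈ N := by
  rw [← t_comm hk h]
  exact N.mul_mem (hN.conj_mem _ hm _) (N.inv_mem hm)

theorem t_mem_right {N : Subgroup McL} (hN : N.Normal) {i j l : ℚ} (h : i < j) (hl : j < l)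
    (hm : t i j h ∈ N) : t i l (h.trans hl) ∈ N := by
  rw [← t_comm h hl, mul_assoc, mul_assoc]
  apply N.mul_mem hm
  rw [← mul_assoc]
  exact hN.conj_mem _ (N.inv_mem hm) _

/-- Two nontrivial normal subgroups intersect nontrivially. -/
theorem inter_ne_bot {N₁ N₂ : Subgroup McL} (h₁ : N₁.Normal) (h₂ : N₂.Normal) (hn₁ : N₁ ≠ ⊥)
    (hn₂ : N₂ ≠ ⊥) : N₁ ⊓ N₂ ≠ ⊥ := by
  obtain ⟨i, j, h, hm⟩ := exists_t_mem h₁ hn₁
  obtain ⟨i', j', h', hm'⟩ := exists_t_mem h₂ hn₂
  obtain ⟨k, hk⟩ : ∃ k : ℚ, k < min i i' := exists_lt _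
  obtain ⟨l, hl⟩ : ∃ l : ℚ, max j j' < l := exists_gt _
  have hki : k < i := lt_of_lt_of_le hk (min_le_left _ _)
  have hki' : k < i' := lt_of_lt_of_le hk (min_le_right _ _)
  have hjl : j < l := lt_of_le_of_lt (le_max_left _ _) hl
  have hjl' : j' < l := lt_of_le_of_lt (le_max_right _ _) hl
  have m1 := t_mem_right h₁ (hki.trans h) hjl (t_mem_left h₁ h hki hm)
  have m2 := t_mem_right h₂ (hki'.trans h') hjl' (t_mem_left h₂ h' hki' hm')
  intro hbot
  have m3 : t k l ((hki.trans h).trans hjl) ∈ N₁ ⊓ N₂ := ⟨m1, m2⟩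
  rw [hbot, Subgroup.mem_bot] at m3
  exact t_ne_one _ m3

theorem center_eq_bot : Subgroup.center McL = ⊥ := by
  by_contra hne
  obtain ⟨i, j, h, hm⟩ := exists_t_mem inferInstance hne
  have h2 : j < j + 1 := by linarith
  have h3 := t_comm h h2
  have h4 := Subgroup.mem_center_iff.1 hm (t j (j + 1) h2)
  rw [← h4, mul_inv_cancel_right, mul_inv_cancel] at h3
  exact t_ne_one _ h3.symm

theorem closure_t (N : Subgroup McL) (h : ∀ (i j : ℚ) (h : i < j), t i j h ∈ N) : N = ⊤ := by
  rw [eq_top_iff]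
  intro x _
  have h1 : M ≤ N.map M.subtype := by
    unfold M
    rw [Subgroup.closure_le]
    rintro _ ⟨i, j, hij, rfl⟩
    exact ⟨t i j hij, h i j hij, rfl⟩
  obtain ⟨y, hy, hyx⟩ := h1 x.2
  have : y = x := Subtype.ext hyx
  rw [← this]
  exact hy

/-- The permutation of the basis given by an order automorphism. -/
noncomputable def perm (f : ℚ ≃o ℚ) : V ≃ₗ[ZMod 2] V := Finsupp.domLCongr f.toEquiv

theorem perm_apply (f : ℚ ≃o ℚ) (v : V) (k : ℚ) : perm f v k = v (f.symm k) := rfl

theorem perm_e (f : ℚ ≃o ℚ) (k : ℚ) : perm f (e k) = e (f k) := by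
  unfold perm e
  exact Finsupp.domLCongr_single _ _ _

theorem perm_symm_apply (f : ℚ ≃o ℚ) (v : V) (k : ℚ) : (perm f)⁻¹ v k = v (f k) := rfl

theorem perm_conj (f : ℚ ≃o ℚ) {i j : ℚ} (h : i < j) :
    perm f * tv i j h.ne * (perm f)⁻¹ = tv (f i) (f j) (f.strictMono h).ne := by
  apply LinearEquiv.ext
  intro v
  show perm f ((perm f)⁻¹ v + ((perm f)⁻¹ v) j • e i) = v + v (f j) • e (f i)
  rw [map_add, map_smul, perm_e, perm_symm_apply]
  congr 1
  exact (perm f).apply_symm_apply v

theorem map_perm (f : ℚ ≃o ℚ) : M.map (MulAut.conj (perm f)).toMonoidHom = M := by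
  have key : ∀ f : ℚ ≃o ℚ, M.map (MulAut.conj (perm f)).toMonoidHom ≤ M := by
    intro f
    conv_lhs => unfold M
    rw [MonoidHom.map_closure, Subgroup.closure_le]
    rintro _ ⟨_, ⟨i, j, h, rfl⟩, rfl⟩
    have : (MulAut.conj (perm f)).toMonoidHom (tv i j h.ne) = tv (f i) (f j) (f.strictMono h).ne :=
      perm_conj f h
    rw [SetLike.mem_coe, this]
    exact Subgroup.subset_closure ⟨_, _, f.strictMono h, rfl⟩
  apply le_antisymm (key f)
  intro x hx
  have h1 := key f.symm (Subgroup.mem_map_of_mem _ hx)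
  refine ⟨_, h1, ?_⟩
  have h2 : perm f.symm = (perm f)⁻¹ := by
    apply LinearEquiv.ext
    intro v
    ext k
    rfl
  show perm f * (perm f.symm * x * (perm f.symm)⁻¹) * (perm f)⁻¹ = x
  rw [h2, inv_inv]
  group

/-- The automorphism of the McLain group given by an order automorphism. -/
noncomputable def autPerm (f : ℚ ≃o ℚ) : McL ≃* McL :=
  ((MulAut.conj (perm f)).subgroupMap M).trans (MulEquiv.subgroupCongr (map_perm f))

theorem autPerm_t (f : ℚ ≃o ℚ) {i j : ℚ} (h : i < j) :
    autPerm f (t i j h) = t (f i) (f j) (f.strictMono h) :=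
  Subtype.ext (perm_conj f h)

/-- Order automorphisms act transitively on the pairs `i < j`. -/
theorem exists_order {i j k l : ℚ} (h : i < j) (h' : k < l) : ∃ f : ℚ ≃o ℚ, f i = k ∧ f j = l := by
  have hc : 0 < (l - k) / (j - i) := div_pos (by linarith) (by linarith)
  have hji : j - i ≠ 0 := by linarith [h] |> fun h : 0 < j - i => h.ne'
  refine ⟨((OrderIso.addRight (-i)).trans (OrderIso.mulRight₀ _ hc)).trans (OrderIso.addRight k), ?_, ?_⟩
  · simp
  · simp only [OrderIso.trans_apply, OrderIso.addRight_apply, OrderIso.mulRight₀_apply]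
    field_simp
    ring

/-- A normal subgroup which is invariant under all automorphisms and nontrivial is everything. -/
theorem char_simple {N : Subgroup McL} (hN : N.Normal) (hne : N ≠ ⊥)
    (hinv : ∀ (f : ℚ ≃o ℚ), ∀ x ∈ N, autPerm f x ∈ N) : N = ⊤ := by
  obtain ⟨i, j, h, hm⟩ := exists_t_mem hN hne
  apply closure_t
  intro k l hkl
  obtain ⟨f, rfl, rfl⟩ := exists_order h hkl
  have := hinv f _ hm
  rwa [autPerm_t] at this

/-- The vectors with support in the negative rationals. -/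
def W : Set V := {v | ∀ i, 0 ≤ i → v i = 0}

theorem W_add {v w : V} (hv : v ∈ W) (hw : w ∈ W) : v + w ∈ W := by
  intro i hi
  rw [Finsupp.add_apply, hv i hi, hw i hi, add_zero]

theorem preserves_W (x : McL) : ∀ v ∈ W, x.1 v ∈ W ∧ (x⁻¹).1 v ∈ W := by
  obtain ⟨x, hx⟩ := x
  have : ∀ v ∈ W, x v ∈ W ∧ x⁻¹ v ∈ W := by
    unfold M at hx
    induction hx using Subgroup.closure_induction with
    | mem x hx =>
      obtain ⟨i, j, h, rfl⟩ := hx
      intro v hv
      rw [tv_inv, and_self, tv_apply]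
      apply W_add hv
      intro k hk
      rw [Finsupp.smul_apply]
      by_cases hj : 0 ≤ j
      · rw [hv j hj, zero_smul]
      · have : i ≠ k := by
          intro hik
          rw [hik] at h
          linarith
        rw [e_ne this, smul_zero]
    | one => exact fun v hv => ⟨hv, by rw [inv_one]; exact hv⟩
    | mul x y _ _ hx hy =>
      intro v hv
      refine ⟨(hx _ (hy v hv).1).1, ?_⟩
      rw [mul_inv_rev]
      exact (hy _ (hx v hv).2).2
    | inv x _ hx =>
      intro v hv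
      refine ⟨(hx v hv).2, ?_⟩
      rw [inv_inv]
      exact (hx v hv).1
  exact this

/-- An abelian normal subgroup. -/
noncomputable def B : Subgroup McL where
  carrier := {x | (∀ v, x.1 v + v ∈ W) ∧ ∀ v ∈ W, x.1 v = v}
  one_mem' := ⟨fun v => by
    show v + v ∈ W
    rw [add_self]
    exact fun _ _ => rfl, fun _ _ => rfl⟩
  mul_mem' := by
    rintro x y ⟨hx1, hx2⟩ ⟨hy1, hy2⟩
    refine ⟨fun v => ?_, fun v hv => ?_⟩
    · have h1 : (x * y).1 v + v = (x.1 (y.1 v) + y.1 v) + (y.1 v + v) := by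
        rw [mul_val]
        have := add_self (y.1 v)
        calc x.1 (y.1 v) + v = x.1 (y.1 v) + v + 0 := (add_zero _).symm
          _ = x.1 (y.1 v) + v + (y.1 v + y.1 v) := by rw [this]
          _ = _ := by abel
      rw [h1]
      exact W_add (hx1 _) (hy1 _)
    · rw [mul_val, hy2 v hv, hx2 v hv]
  inv_mem' := by
    rintro x ⟨hx1, hx2⟩
    refine ⟨fun v => ?_, fun v hv => inv_fix (hx2 v hv)⟩
    have h1 := hx1 ((x⁻¹).1 v)
    have h2 : x.1 ((x⁻¹).1 v) = v := by
      rw [← mul_val, mul_inv_cancel]; rfl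
    rw [h2, add_comm] at h1
    exact h1

theorem B_normal : B.Normal := by
  constructor
  rintro x ⟨hx1, hx2⟩ g
  have hg : ∀ v, g.1 ((g⁻¹).1 v) = v := by
    intro v
    rw [← mul_val, mul_inv_cancel]; rfl
  refine ⟨fun v => ?_, fun v hv => ?_⟩
  · rw [mul_val, mul_val]
    have h1 := (preserves_W g _ (hx1 ((g⁻¹).1 v))).1
    rw [map_add, hg] at h1
    exact h1
  · rw [mul_val, mul_val, hx2 _ (preserves_W g v hv).2, hg]

theorem B_comm {x y : McL} (hx : x ∈ B) (hy : y ∈ B) : x * y = y * x := by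
  apply ext_v
  intro v
  rw [mul_val, mul_val]
  have h1 : ∀ {x y : McL}, x ∈ B → y ∈ B → x.1 (y.1 v) = x.1 v + y.1 v + v := by
    intro x y hx hy
    have h2 := hx.2 _ (hy.1 v)
    rw [map_add] at h2
    have := add_self (x.1 v)
    calc x.1 (y.1 v) = x.1 (y.1 v) + 0 := (add_zero _).symm
      _ = x.1 (y.1 v) + (x.1 v + x.1 v) := by rw [this]
      _ = (x.1 (y.1 v) + x.1 v) + x.1 v := by abel
      _ = (y.1 v + v) + x.1 v := by rw [h2]
      _ = _ := by abel
  rw [h1 hx hy, h1 hy hx]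
  abel

theorem B_ne_bot : B ≠ ⊥ := by
  intro h
  have h1 : (-1 : ℚ) < 0 := by norm_num
  have h2 : t (-1) 0 h1 ∈ B := by
    refine ⟨fun v => ?_, fun v hv => ?_⟩
    · rw [t_val]
      have := add_self v
      have h3 : v + v 0 • e (-1) + v = v 0 • e (-1) := by
        calc v + v 0 • e (-1) + v = v 0 • e (-1) + (v + v) := by abel
          _ = _ := by rw [this, add_zero]
      rw [h3]
      intro i hi
      rw [Finsupp.smul_apply, e_ne (by intro h; rw [← h] at hi; norm_num at hi), smul_zero]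
    · rw [t_val, hv 0 le_rfl, zero_smul, add_zero]
  rw [h, Subgroup.mem_bot] at h2
  exact t_ne_one _ h2

end Pool.Agent.Q101.McLain
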