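import Mathlib

open scoped commutatorElement

namespace Pool.Agent.Q101.TowerGroup

universe u

theorem map_comm_mk {G : Type u} [Group G] (N : Subgroup G) [N.Normal] :
    (commutator G).map (QuotientGroup.mk' N) = commutator (G ⧸ N) := by
  rw [_root_.commutator_def, _root_.commutator_def, Subgroup.map_commutator,
    ← MonoidHom.range_eq_map, MonoidHom.range_eq_top.2 (QuotientGroup.mk'_surjective _)]

/-- If `D = [G,G]` satisfies `[D,G] = D`, then all `Z_i(G)` centralise `D`. -/
theorem ucs_comm (i : ℕ) : ∀ (G : Type u) [Group G], ⁅commutator G, (⊤ : Subgroup G)⁆ = commutator G →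
    ⁅Subgroup.upperCentralSeries G i, commutator G⁆ = ⊥ := by
  induction i with
  | zero => intro G _ _; simp [Subgroup.upperCentralSeries_zero]
  | succ i ih =>
    intro G _ hG
    have hD := map_comm_mk (Subgroup.center G)
    have h1 := ih G hG
    have h2 := ih (G ⧸ Subgroup.center G) (by
      rw [← hD]
      conv_rhs => rw [← hG]
      rw [Subgroup.map_commutator, ← MonoidHom.range_eq_map (QuotientGroup.mk' (Subgroup.center G)),
        MonoidHom.range_eq_top.2 (QuotientGroup.mk'_surjective _)])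
    have h3 : ⁅Subgroup.upperCentralSeries G (i+1), commutator G⁆ ≤ Subgroup.center G := by
      have : (⁅Subgroup.upperCentralSeries G (i+1), commutator G⁆).map
          (QuotientGroup.mk' (Subgroup.center G)) = ⊥ := by
        rw [Subgroup.map_commutator, hD, eq_bot_iff, ← h2]
        apply Subgroup.commutator_mono _ le_rfl
        rw [Subgroup.map_le_iff_le_comap, Subgroup.comap_upperCentralSeries_quotient_center]
      rw [Subgroup.map_eq_bot_iff, QuotientGroup.ker_mk'] at this
      exact this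
    have h4 : ⁅⁅Subgroup.upperCentralSeries G (i+1), commutator G⁆, (⊤ : Subgroup G)⁆ = ⊥ := by
      rw [Subgroup.commutator_top_right_eq_bot_iff_le_center]; exact h3
    have h5 : ⁅⁅(⊤ : Subgroup G), Subgroup.upperCentralSeries G (i+1)⁆, commutator G⁆ = ⊥ := by
      rw [eq_bot_iff, ← h1]
      apply Subgroup.commutator_mono _ le_rfl
      rw [Subgroup.commutator_comm]
      exact Subgroup.commutator_upperCentralSeries_top_le G i
    have h6 := Subgroup.commutator_commutator_eq_bot_of_rotate h5 h4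
    rw [hG, Subgroup.commutator_comm] at h6
    exact h6

variable {G : Type u} [Group G]

theorem top_sup {a : G} (h : commutator G ⊔ Subgroup.zpowers a = ⊤) (g : G) :
    ∃ d ∈ commutator G, ∃ k : ℤ, g = d * a ^ k := by
  have : g ∈ commutator G ⊔ Subgroup.zpowers a := by rw [h]; trivial
  obtain ⟨d, hd, z, hz, hg⟩ := Subgroup.mem_sup_of_normal_left.1 this
  obtain ⟨k, rfl⟩ := hz
  exact ⟨d, hd, k, hg.symm⟩

/-- `[D,G] = D` -/
theorem comm_eq {a : G} (h : commutator G ⊔ Subgroup.zpowers a = ⊤) :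
    ⁅commutator G, (⊤ : Subgroup G)⁆ = commutator G := by
  apply le_antisymm (Subgroup.commutator_mono le_top le_rfl)
  set K : Subgroup G := ⁅commutator G, (⊤ : Subgroup G)⁆ with hK
  have hc : ∀ d ∈ commutator G, ∀ g : G, (QuotientGroup.mk d : G ⧸ K) * QuotientGroup.mk g
      = QuotientGroup.mk g * QuotientGroup.mk d := by
    intro d hd g
    rw [← commutatorElement_eq_one_iff_mul_comm]
    have : (⁅(QuotientGroup.mk d : G ⧸ K), (QuotientGroup.mk g : G ⧸ K)⁆)
        = (QuotientGroup.mk ⁅d, g⁆ : G ⧸ K) := rfl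
    rw [this, QuotientGroup.eq_one_iff]
    exact Subgroup.commutator_mem_commutator hd trivial
  show ⁅(⊤ : Subgroup G), ⊤⁆ ≤ K
  rw [Subgroup.commutator_le]
  intro g _ g' _
  obtain ⟨d, hd, k, rfl⟩ := top_sup h g
  obtain ⟨d', hd', l, rfl⟩ := top_sup h g'
  rw [← QuotientGroup.eq_one_iff]
  have : (QuotientGroup.mk ⁅d * a ^ k, d' * a ^ l⁆ : G ⧸ K)
     = ⁅((QuotientGroup.mk d : G ⧸ K) * (QuotientGroup.mk a : G ⧸ K) ^ k),
        ((QuotientGroup.mk d' : G ⧸ K) * (QuotientGroup.mk a : G ⧸ K) ^ l)⁆ := rfl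
  rw [this, commutatorElement_eq_one_iff_commute]
  have c1 : ∀ x : G, Commute (QuotientGroup.mk d : G ⧸ K) (QuotientGroup.mk x : G ⧸ K) :=
    fun x => hc d hd x
  have c2 : ∀ x : G, Commute (QuotientGroup.mk d' : G ⧸ K) (QuotientGroup.mk x : G ⧸ K) :=
    fun x => hc d' hd' x
  have e1 := c1 d'
  have e2 : Commute (QuotientGroup.mk d : G ⧸ K) ((QuotientGroup.mk a : G ⧸ K) ^ l) :=
    (c1 a).zpow_right l
  have e3 : Commute ((QuotientGroup.mk a : G ⧸ K) ^ k) (QuotientGroup.mk d' : G ⧸ K) :=
    ((c2 a).zpow_right k).symm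
  have e4 : Commute ((QuotientGroup.mk a : G ⧸ K) ^ k) ((QuotientGroup.mk a : G ⧸ K) ^ l) :=
    (Commute.refl _).zpow_zpow k l
  exact (e1.mul_right e2).mul_left (e3.mul_right e4)

/-- the intersection of the hypercentre with `D` lies in `D'`. -/
theorem hyper_le [Finite G] {a : G} (h : commutator G ⊔ Subgroup.zpowers a = ⊤) (i : ℕ) :
    Subgroup.upperCentralSeries G i ⊓ commutator G ≤ ⁅commutator G, commutator G⁆ := by
  have hDG := comm_eq h
  have htop := top_sup h
  clear h
  have hDn : (commutator G).Normal := inferInstance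
  have hDcomm : ∀ x y : G, ⁅x, y⁆ ∈ commutator G := fun x y =>
    Subgroup.commutator_mem_commutator trivial trivial
  generalize commutator G = D at *
  set E : Subgroup G := ⁅D, D⁆ with hE
  -- elements of `D/E` fixed by conjugation by `a` are trivial
  have key : ∀ d ∈ D, ⁅a, d⁆ ∈ E → d ∈ E := by
    -- the map d ↦ ⁅a, d⁆ on D/E, D/E = D.map (mk' E)
    let q := QuotientGroup.mk' E
    let DH : Subgroup (G ⧸ E) := D.map q
    have hab : ∀ x ∈ DH, ∀ y ∈ DH, x * y = y * x := by
      rintro _ ⟨x, hx, rfl⟩ _ ⟨y, hy, rfl⟩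
      rw [← commutatorElement_eq_one_iff_mul_comm, ← map_commutatorElement]
      exact (QuotientGroup.eq_one_iff _).2 (Subgroup.commutator_mem_commutator hx hy)
    have hnorm : DH.Normal := Subgroup.Normal.map hDn q (QuotientGroup.mk'_surjective E)
    let al : G ⧸ E := q a
    have hmem : ∀ x ∈ DH, ⁅al, x⁆ ∈ DH := by
      intro x hx
      rw [commutatorElement_def]
      exact DH.mul_mem (hnorm.conj_mem x hx al) (DH.inv_mem hx)
    let φ : DH →* DH :=
      { toFun := fun x => ⟨⁅al, (x : G ⧸ E)⁆, hmem x x.2⟩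
        map_one' := by ext; simp
        map_mul' := by
          intro x y
          ext
          simp only [Subgroup.coe_mul]
          rw [commutatorElement_mul_right_eq_mul_conj]
          rw [mul_assoc ⁅al, (x : G ⧸ E)⁆, hab x x.2 _ (hmem y y.2)]
          simp [mul_assoc] }
    have hφa : ∀ x : DH, ((φ x : DH) : G ⧸ E) = ⁅al, (x : G ⧸ E)⁆ := fun x => rfl
    -- the image as a subgroup of G/E
    let I : Subgroup (G ⧸ E) := φ.range.map DH.subtype
    have hI : ∀ x ∈ DH, ⁅al, x⁆ ∈ I := fun x hx => ⟨φ ⟨x, hx⟩, ⟨⟨x, hx⟩, rfl⟩, rfl⟩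
    have hIle : I ≤ DH := by
      rintro _ ⟨y, _, rfl⟩
      exact y.2
    have hIconj : ∀ y ∈ I, al * y * al⁻¹ ∈ I := by
      rintro _ ⟨_, ⟨x, rfl⟩, rfl⟩
      have hx : al * (x : G ⧸ E) * al⁻¹ ∈ DH := hnorm.conj_mem _ x.2 al
      have := hI _ hx
      convert this using 1
      simp only [Subgroup.coe_subtype, hφa, commutatorElement_def]
      group
    have hpow : ∀ n : ℕ, ∀ x ∈ DH, ⁅al ^ n, x⁆ ∈ I := by
      intro n
      induction n with
      | zero => intro x hx; simp [I.one_mem]
      | succ n ih =>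
        intro x hx
        have e : ⁅al ^ (n+1), x⁆ = (al * ⁅al ^ n, x⁆ * al⁻¹) * ⁅al, x⁆ := by
          rw [pow_succ']
          simp only [commutatorElement_def]
          group
        rw [e]
        exact I.mul_mem (hIconj _ (ih x hx)) (hI x hx)
    have hzpow : ∀ n : ℤ, ∀ x ∈ DH, ⁅x, al ^ n⁆ ∈ I := by
      intro n x hx
      obtain ⟨m, hm⟩ : ∃ m : ℕ, al ^ n = al ^ m := by
        have hf : IsOfFinOrder al := isOfFinOrder_of_finite al
        have := hf.mem_powers_iff_mem_zpowers.2 ⟨n, rfl⟩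
        obtain ⟨m, hm⟩ := this
        exact ⟨m, hm.symm⟩
      rw [hm, ← commutatorElement_inv]
      exact I.inv_mem (hpow m x hx)
    have hDI : DH ≤ I := by
      have : DH = ⁅DH, (⊤ : Subgroup (G ⧸ E))⁆ := by
        have e0 := congrArg (Subgroup.map q) hDG
        rw [Subgroup.map_commutator, ← MonoidHom.range_eq_map q,
          MonoidHom.range_eq_top.2 (QuotientGroup.mk'_surjective _)] at e0
        exact e0.symm
      rw [this, Subgroup.commutator_le]
      intro x hx g _
      obtain ⟨g, rfl⟩ := QuotientGroup.mk'_surjective _ g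
      obtain ⟨d, hd, k, rfl⟩ := htop g
      have hqd : q d ∈ DH := ⟨d, hd, rfl⟩
      have e : ⁅x, q (d * a ^ k)⁆ = q d * ⁅x, al ^ k⁆ * (q d)⁻¹ := by
        rw [map_mul, map_zpow]
        simp only [commutatorElement_def]
        have h1 := hab x hx _ hqd
        show x * (q d * al ^ k) * x⁻¹ * (q d * al ^ k)⁻¹ = q d * (x * al ^ k * x⁻¹ * (al ^ k)⁻¹) * (q d)⁻¹
        rw [← mul_assoc x, h1]
        group
      show ⁅x, q (d * a ^ k)⁆ ∈ I
      rw [e, hab (q d) hqd _ (hIle (hzpow k x hx))]
      simp only [mul_inv_cancel_right]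
      exact hzpow k x hx
    have hsurj : Function.Surjective φ := by
      intro y
      obtain ⟨z, ⟨x, hx⟩, hz⟩ := hDI y.2
      refine ⟨x, ?_⟩
      rw [hx]
      exact Subtype.ext hz
    have hinj : Function.Injective φ := Finite.injective_iff_surjective.2 hsurj
    intro d hd hde
    have h1 : φ ⟨q d, ⟨d, hd, rfl⟩⟩ = 1 := by
      ext
      rw [hφa]
      simp only [Subgroup.coe_one]
      show ⁅q a, q d⁆ = 1
      rw [← map_commutatorElement]
      exact (QuotientGroup.eq_one_iff _).2 hde
    have h2 := hinj (h1.trans (map_one φ).symm)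
    have h3 : q d = 1 := congrArg Subtype.val h2
    exact (QuotientGroup.eq_one_iff _).1 h3
  induction i with
  | zero => simp [Subgroup.upperCentralSeries_zero]
  | succ i ih =>
    rintro x ⟨hx, hxD⟩
    apply key x hxD
    apply ih
    refine ⟨?_, hDcomm _ _⟩
    have := Subgroup.mem_upperCentralSeries_succ_iff.1 hx a
    rw [← commutatorElement_inv]
    exact Subgroup.inv_mem _ this

/-- A group whose centre has index at most `m ≠ 0` has at most `m^2` commutators. -/
theorem card_commutatorSet_le (D : Type u) [Group D] [Finite D] :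
    Nat.card (commutatorSet D) ≤ (Subgroup.center D).index ^ 2 := by
  classical
  let f : (D ⧸ Subgroup.center D) × (D ⧸ Subgroup.center D) → commutatorSet D :=
    fun p => ⟨⁅p.1.out, p.2.out⁆, ⟨p.1.out, p.2.out, rfl⟩⟩
  have hf : Function.Surjective f := by
    rintro ⟨_, ⟨g, h, rfl⟩⟩
    refine ⟨(QuotientGroup.mk g, QuotientGroup.mk h), ?_⟩
    apply Subtype.ext
    show ⁅((QuotientGroup.mk g : D ⧸ Subgroup.center D)).out, ((QuotientGroup.mk h : D ⧸ Subgroup.center D)).out⁆ = ⁅g, h⁆
    obtain ⟨z, hz⟩ := QuotientGroup.mk_out_eq_mul (Subgroup.center D) g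
    obtain ⟨w, hw⟩ := QuotientGroup.mk_out_eq_mul (Subgroup.center D) h
    rw [hz, hw]
    have hz' := Subgroup.mem_center_iff.1 z.2
    have hw' := Subgroup.mem_center_iff.1 w.2
    simp only [commutatorElement_def, mul_inv_rev]
    have e1 : g * (z : D) * (h * (w : D)) * ((z : D)⁻¹ * g⁻¹) * ((w : D)⁻¹ * h⁻¹)
       = g * h * ((w : D) * ((z : D) * (z : D)⁻¹)) * g⁻¹ * ((w : D)⁻¹ * h⁻¹) := by
      rw [mul_assoc g (z : D), ← hz' (h * (w : D))]
      group
    rw [e1]
    have e2 : (w : D) * ((z : D) * (z : D)⁻¹) = w := by group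
    rw [e2, mul_assoc (g * h) (w : D) g⁻¹, ← hw' g⁻¹]
    group
  have := Nat.card_le_card_of_surjective f hf
  rwa [Nat.card_prod, ← Subgroup.index, ← sq] at this

/-- the main group-theoretic bound -/
theorem card_commutator_le [Finite G] {a : G} (h : commutator G ⊔ Subgroup.zpowers a = ⊤) (i : ℕ)
    (N : Subgroup G) [N.Normal] (hN : N ≤ Subgroup.upperCentralSeries G i) :
    Nat.card (commutator G) ≤ N.index ^ (N.index ^ 3 + 2) := by
  have hDG := comm_eq h
  have hhyp := hyper_le h i
  have hcen := ucs_comm i G hDG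
  set m := N.index with hm
  have hm0 : m ≠ 0 := Subgroup.index_ne_zero_of_finite
  let D := commutator G
  -- L = N ∩ D as a subgroup of D
  let L : Subgroup D := N.subgroupOf D
  have hLidx : L.index ∣ m := Subgroup.relIndex_dvd_index_of_normal N D
  have hLc : L ≤ Subgroup.center D := by
    intro x hx
    have hx' : (x : G) ∈ N := hx
    rw [Subgroup.mem_center_iff]
    intro y
    have := Subgroup.commutator_eq_bot_iff_le_centralizer.1 hcen (hN hx')
    have := Subgroup.mem_centralizer_iff.1 this y y.2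
    exact Subtype.ext this
  have hcidx : (Subgroup.center D).index ∣ m := (Subgroup.index_dvd_of_le hLc).trans hLidx
  have hLD : L ≤ commutator D := by
    intro x hx
    have hx' : (x : G) ∈ N := hx
    have : (x : G) ∈ ⁅D, D⁆ := hhyp ⟨hN hx', x.2⟩
    have e : (commutator D).map D.subtype = ⁅D, D⁆ := by
      rw [_root_.commutator_def, Subgroup.map_commutator, ← MonoidHom.range_eq_map, Subgroup.range_subtype]
    rw [← e] at this
    obtain ⟨y, hy, hyx⟩ := this
    have : y = x := Subtype.ext hyx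
    rwa [← this]
  have hcd := Subgroup.card_commutator_dvd_index_center_pow D
  have hcs := card_commutatorSet_le D
  have hcle : (Subgroup.center D).index ≤ m := Nat.le_of_dvd (Nat.pos_of_ne_zero hm0) hcidx
  have h1 : Nat.card (commutator D) ≤ m ^ (m * m ^ 2 + 1) := by
    refine (Nat.le_of_dvd ?_ hcd).trans ?_
    · exact pow_pos (Nat.pos_of_ne_zero Subgroup.index_ne_zero_of_finite) _
    · refine (Nat.pow_le_pow_left hcle _).trans ?_
      apply Nat.pow_le_pow_right (Nat.pos_of_ne_zero hm0)
      gcongr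
      exact hcs.trans (Nat.pow_le_pow_left hcle 2)
  have h2 : Nat.card L ≤ Nat.card (commutator D) := Nat.card_mono (Set.toFinite _) hLD
  have h3 : Nat.card D = Nat.card L * L.index := (Subgroup.card_mul_index L).symm
  have h4 : L.index ≤ m := Nat.le_of_dvd (Nat.pos_of_ne_zero hm0) hLidx
  calc Nat.card D = Nat.card L * L.index := h3
    _ ≤ m ^ (m * m ^ 2 + 1) * m := Nat.mul_le_mul (h2.trans h1) h4
    _ = m ^ (m ^ 3 + 2) := by ring

end Pool.Agent.Q101.TowerGroup
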